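import Mathlib

/-!
Doubling on `y ^ 2 = x ^ 3 + A ^ 2` over a rational function field, and the height of `y / A`.
-/

namespace Pool.Agent.Helper44

open Polynomial

/-- The Mordell curve `y ^ 2 = x ^ 3 + a`. -/
def mordell {K : Type*} [Field K] (a : K) : WeierstrassCurve K := ⟨0, 0, 0, 0, a⟩

section general

variable {K : Type*} [Field K]

lemma mordell_equation (a x y : K) :
    (mordell a).toAffine.Equation x y ↔ y ^ 2 = x ^ 3 + a := by
  rw [WeierstrassCurve.Affine.equation_iff]
  simp [mordell]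

lemma mordell_nonsingular (a x y : K) (ha : a ≠ 0) (h2 : (2 : K) ≠ 0) (h3 : (3 : K) ≠ 0)
    (h : y ^ 2 = x ^ 3 + a) : (mordell a).toAffine.Nonsingular x y := by
  rw [WeierstrassCurve.Affine.nonsingular_iff]
  refine ⟨(mordell_equation a x y).2 h, ?_⟩
  simp only [mordell]
  by_cases hy : y = 0
  · left
    have hx : x ≠ 0 := by
      rintro rfl
      apply ha
      rw [hy] at h
      simpa using h.symm
    simp only [ne_eq]
    intro h0
    have : (3 : K) * x ^ 2 = 0 := by linear_combination -h0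
    rcases mul_eq_zero.1 this with h' | h'
    · exact h3 h'
    · exact hx (pow_eq_zero_iff (two_ne_zero) |>.1 h')
  · right
    simp only [ne_eq]
    intro h0
    have : (2 : K) * y = 0 := by linear_combination h0
    rcases mul_eq_zero.1 this with h' | h'
    · exact h2 h'
    · exact hy h'

/-- The function `y / A` on the points of `y ^ 2 = x ^ 3 + A ^ 2` (and `0` at infinity). -/
noncomputable def slopeFun (A : K) : (mordell (A ^ 2)).toAffine.Point → K
  | .zero => 0
  | .some _ y _ => y / A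

/-- The effect of doubling on `y / A`. -/
noncomputable def dbl (r : K) : K := (r ^ 4 + 18 * r ^ 2 - 27) / (8 * r ^ 3)

variable [DecidableEq K]

lemma slopeFun_double (A : K) (hA : A ≠ 0) (h2 : (2 : K) ≠ 0)
    (P : (mordell (A ^ 2)).toAffine.Point) (hP : slopeFun A P ≠ 0) :
    P + P ≠ 0 ∧ slopeFun A (P + P) = dbl (slopeFun A P) := by
  cases P with
  | zero => exact absurd rfl hP
  | some x y h =>
    have hy : y ≠ 0 := by
      rintro rfl
      exact hP (by simp [slopeFun])
    have heq : y ^ 2 = x ^ 3 + A ^ 2 := (mordell_equation _ _ _).1 h.1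
    have hneg : (mordell (A ^ 2)).toAffine.negY x y = -y := by
      simp [WeierstrassCurve.Affine.negY, mordell]
    have hyne : y ≠ (mordell (A ^ 2)).toAffine.negY x y := by
      rw [hneg]
      intro h'
      have : (2 : K) * y = 0 := by linear_combination h'
      rcases mul_eq_zero.1 this with h'' | h''
      · exact h2 h''
      · exact hy h''
    rw [WeierstrassCurve.Affine.Point.add_self_of_Y_ne hyne]
    refine ⟨WeierstrassCurve.Affine.Point.some_ne_zero _, ?_⟩
    simp only [slopeFun, dbl]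
    rw [WeierstrassCurve.Affine.slope_of_Y_ne rfl hyne, hneg]
    simp only [WeierstrassCurve.Affine.addY, WeierstrassCurve.Affine.negAddY,
      WeierstrassCurve.Affine.addX, WeierstrassCurve.Affine.negY, mordell]
    have h8 : (8 : K) ≠ 0 := by
      have : (8 : K) = 2 ^ 3 := by norm_num
      rw [this]; exact pow_ne_zero _ h2
    have hyy : y - -y = 2 * y := by ring
    rw [hyy]
    field_simp
    have hx3 : x ^ 3 = y ^ 2 - A ^ 2 := by rw [heq]; ring
    have hx6 : x ^ 6 = (y ^ 2 - A ^ 2) ^ 2 := by rw [← hx3]; ring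
    ring_nf
    try rw [hx6]
    try rw [hx3]
    ring_nf

end general

section ratfunc

variable {F : Type*} [Field F]

/-- The height of a rational function: the maximum of the degrees of numerator and denominator. -/
noncomputable def ht (r : RatFunc F) : ℕ := max r.num.natDegree r.denom.natDegree

lemma ht_div (U V : F[X]) (hV : V ≠ 0) (hUV : IsCoprime U V) :
    ht (algebraMap F[X] (RatFunc F) U / algebraMap F[X] (RatFunc F) V) =
      max U.natDegree V.natDegree := by
  set r := algebraMap F[X] (RatFunc F) U / algebraMap F[X] (RatFunc F) V with hr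
  have h1 : r.num * V = U * r.denom := by
    rw [RatFunc.num_mul_eq_mul_denom_iff hV]
  have hc := RatFunc.isCoprime_num_denom r
  have hd1 : r.num ∣ U := by
    apply hc.dvd_of_dvd_mul_right
    rw [← h1]; exact dvd_mul_right _ _
  have hd2 : U ∣ r.num := by
    apply hUV.dvd_of_dvd_mul_right
    rw [h1]; exact dvd_mul_right _ _
  have hd3 : r.denom ∣ V := by
    apply hc.symm.dvd_of_dvd_mul_left
    rw [h1]; exact dvd_mul_left _ _
  have hd4 : V ∣ r.denom := by
    apply hUV.symm.dvd_of_dvd_mul_left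
    rw [← h1]; exact dvd_mul_left _ _
  have e1 : r.num.natDegree = U.natDegree :=
    Polynomial.natDegree_eq_natDegree (degree_eq_degree_of_associated (associated_of_dvd_dvd hd1 hd2))
  have e2 : r.denom.natDegree = V.natDegree :=
    Polynomial.natDegree_eq_natDegree (degree_eq_degree_of_associated (associated_of_dvd_dvd hd3 hd4))
  rw [ht, e1, e2]

lemma isCoprime_dbl (U V : F[X]) (h2 : (2 : F) ≠ 0) (h3 : (3 : F) ≠ 0) (hUV : IsCoprime U V) :
    IsCoprime (U ^ 4 + 18 * U ^ 2 * V ^ 2 - 27 * V ^ 4) (8 * U ^ 3 * V) := by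
  have h8 : IsCoprime (U ^ 4 + 18 * U ^ 2 * V ^ 2 - 27 * V ^ 4) (8 : F[X]) := by
    have : IsUnit (8 : F[X]) := by
      have : (8 : F[X]) = C 8 := (map_ofNat C 8).symm
      rw [this, isUnit_C, isUnit_iff_ne_zero]
      have : (8 : F) = 2 ^ 3 := by norm_num
      rw [this]; exact pow_ne_zero _ h2
    have h := (isCoprime_mul_unit_left_right this
      (U ^ 4 + 18 * U ^ 2 * V ^ 2 - 27 * V ^ 4) 1).2 isCoprime_one_right
    simpa using h
  have h27 : IsUnit (27 : F[X]) := by
    have : (27 : F[X]) = C 27 := (map_ofNat C 27).symm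
    rw [this, isUnit_C, isUnit_iff_ne_zero]
    have : (27 : F) = 3 ^ 3 := by norm_num
    rw [this]; exact pow_ne_zero _ h3
  have hU : IsCoprime (U ^ 4 + 18 * U ^ 2 * V ^ 2 - 27 * V ^ 4) U := by
    have e : U ^ 4 + 18 * U ^ 2 * V ^ 2 - 27 * V ^ 4 =
        (-(27 * V ^ 4)) + (U ^ 3 + 18 * U * V ^ 2) * U := by ring
    rw [e]
    apply IsCoprime.add_mul_right_left
    apply IsCoprime.neg_left
    apply IsCoprime.mul_left
    · have h := (isCoprime_mul_unit_left_left h27 1 U).2 isCoprime_one_left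
      simpa using h
    · exact (hUV.symm.pow_left)
  have hV : IsCoprime (U ^ 4 + 18 * U ^ 2 * V ^ 2 - 27 * V ^ 4) V := by
    have e : U ^ 4 + 18 * U ^ 2 * V ^ 2 - 27 * V ^ 4 =
        U ^ 4 + (18 * U ^ 2 * V - 27 * V ^ 3) * V := by ring
    rw [e]
    apply IsCoprime.add_mul_right_left
    exact hUV.pow_left
  exact IsCoprime.mul_right (IsCoprime.mul_right h8 hU.pow_right) hV

lemma natDegree_dbl (U V : F[X]) (h2 : (2 : F) ≠ 0) (h3 : (3 : F) ≠ 0) (hU : U ≠ 0) (hV : V ≠ 0) :
    max (U ^ 4 + 18 * U ^ 2 * V ^ 2 - 27 * V ^ 4).natDegree (8 * U ^ 3 * V).natDegree =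
      4 * max U.natDegree V.natDegree := by
  have h8 : (8 : F) ≠ 0 := by
    have : (8 : F) = 2 ^ 3 := by norm_num
    rw [this]; exact pow_ne_zero _ h2
  have h27 : (27 : F) ≠ 0 := by
    have : (27 : F) = 3 ^ 3 := by norm_num
    rw [this]; exact pow_ne_zero _ h3
  have hden : (8 * U ^ 3 * V).natDegree = 3 * U.natDegree + V.natDegree := by
    have : (8 * U ^ 3 * V) = C 8 * (U ^ 3 * V) := by rw [map_ofNat C 8, mul_assoc]
    rw [this, natDegree_C_mul h8, natDegree_mul (pow_ne_zero _ hU) hV, natDegree_pow]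
  have hA : (U ^ 4).natDegree = 4 * U.natDegree := natDegree_pow _ _
  have hB : (18 * U ^ 2 * V ^ 2).natDegree ≤ 2 * U.natDegree + 2 * V.natDegree := by
    have : (18 * U ^ 2 * V ^ 2) = C 18 * (U ^ 2 * V ^ 2) := by rw [map_ofNat C 18, mul_assoc]
    rw [this]
    refine (natDegree_C_mul_le _ _).trans ?_
    refine natDegree_mul_le.trans ?_
    rw [natDegree_pow, natDegree_pow]
  have hC : (27 * V ^ 4).natDegree = 4 * V.natDegree := by
    have : (27 * V ^ 4) = C 27 * V ^ 4 := by rw [map_ofNat C 27]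
    rw [this, natDegree_C_mul h27, natDegree_pow]
  have hle : (U ^ 4 + 18 * U ^ 2 * V ^ 2 - 27 * V ^ 4).natDegree ≤
      4 * max U.natDegree V.natDegree := by
    refine (natDegree_sub_le _ _).trans (max_le ?_ ?_)
    · refine (natDegree_add_le _ _).trans (max_le ?_ ?_)
      · rw [hA]; omega
      · omega
    · rw [hC]; omega
  rcases lt_trichotomy U.natDegree V.natDegree with h | h | h
  · -- the last term dominates
    have h1 : (U ^ 4 + 18 * U ^ 2 * V ^ 2).natDegree < (27 * V ^ 4).natDegree := by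
      refine lt_of_le_of_lt (natDegree_add_le _ _) (max_lt ?_ ?_) <;> omega
    have := natDegree_sub_eq_right_of_natDegree_lt h1
    rw [this, hC, hden]
    omega
  · rw [hden]
    omega
  · have h1 : (27 * V ^ 4).natDegree < (U ^ 4 + 18 * U ^ 2 * V ^ 2).natDegree := by
      have h2 : (18 * U ^ 2 * V ^ 2).natDegree < (U ^ 4).natDegree := by omega
      rw [natDegree_add_eq_left_of_natDegree_lt h2]
      omega
    have h2 : (18 * U ^ 2 * V ^ 2).natDegree < (U ^ 4).natDegree := by omega
    rw [natDegree_sub_eq_left_of_natDegree_lt h1, natDegree_add_eq_left_of_natDegree_lt h2, hA, hden]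
    omega

lemma two_ne_zero_ratFunc (h2 : (2 : F) ≠ 0) : (2 : RatFunc F) ≠ 0 := by
  have : (2 : RatFunc F) = RatFunc.C (2 : F) := (map_ofNat RatFunc.C 2).symm
  rw [this]
  exact (_root_.map_ne_zero _).2 h2

lemma three_ne_zero_ratFunc (h3 : (3 : F) ≠ 0) : (3 : RatFunc F) ≠ 0 := by
  have : (3 : RatFunc F) = RatFunc.C (3 : F) := (map_ofNat RatFunc.C 3).symm
  rw [this]
  exact (_root_.map_ne_zero _).2 h3

lemma ht_dbl (r : RatFunc F) (h2 : (2 : F) ≠ 0) (h3 : (3 : F) ≠ 0) (hr : r ≠ 0) :
    ht (dbl r) = 4 * ht r := by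
  set U := r.num with hU
  set V := r.denom with hV
  have hU0 : U ≠ 0 := RatFunc.num_ne_zero hr
  have hV0 : V ≠ 0 := RatFunc.denom_ne_zero r
  have hV0' : algebraMap F[X] (RatFunc F) V ≠ 0 := by
    simpa using hV0
  have hU0' : algebraMap F[X] (RatFunc F) U ≠ 0 := by
    simpa using hU0
  have hc : IsCoprime U V := RatFunc.isCoprime_num_denom r
  have hr' : r = algebraMap F[X] (RatFunc F) U / algebraMap F[X] (RatFunc F) V :=
    (RatFunc.num_div_denom r).symm
  have h2' : (2 : RatFunc F) ≠ 0 := two_ne_zero_ratFunc h2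
  have h8' : (8 : RatFunc F) ≠ 0 := by
    have : (8 : RatFunc F) = 2 ^ 3 := by norm_num
    rw [this]; exact pow_ne_zero _ h2'
  have hd : dbl r = algebraMap F[X] (RatFunc F) (U ^ 4 + 18 * U ^ 2 * V ^ 2 - 27 * V ^ 4) /
      algebraMap F[X] (RatFunc F) (8 * U ^ 3 * V) := by
    rw [dbl, hr']
    simp only [map_add, map_sub, map_mul, map_pow, map_ofNat]
    field_simp
  have h8 : (8 : F) ≠ 0 := by
    have : (8 : F) = 2 ^ 3 := by norm_num
    rw [this]; exact pow_ne_zero _ h2
  have h8p : (8 : F[X]) ≠ 0 := by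
    have : (8 : F[X]) = C 8 := (map_ofNat C 8).symm
    rw [this]; exact C_ne_zero.2 h8
  rw [hd, ht_div _ _ (mul_ne_zero (mul_ne_zero h8p (pow_ne_zero _ hU0)) hV0)
    (isCoprime_dbl U V h2 h3 hc), natDegree_dbl U V h2 h3 hU0 hV0]
  rfl

variable [DecidableEq (RatFunc F)]

/-- If `y / A` has positive height then the point has infinite order, and the heights of the
`2 ^ k`-multiples grow like `4 ^ k`. -/
lemma ht_two_pow_smul (A : RatFunc F) (hA : A ≠ 0) (h2 : (2 : F) ≠ 0) (h3 : (3 : F) ≠ 0)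
    (P : (mordell (A ^ 2)).toAffine.Point) (hP : 0 < ht (slopeFun A P)) (k : ℕ) :
    ht (slopeFun A (2 ^ k • P)) = 4 ^ k * ht (slopeFun A P) := by
  induction k with
  | zero => simp
  | succ k ih =>
    have hpos : 0 < ht (slopeFun A (2 ^ k • P)) := by
      rw [ih]; positivity
    have hne : slopeFun A (2 ^ k • P) ≠ 0 := by
      intro h0
      rw [h0] at hpos
      simp [ht] at hpos
    have h := slopeFun_double A hA (two_ne_zero_ratFunc h2) (2 ^ k • P) hne
    have e : 2 ^ (k + 1) • P = 2 ^ k • P + 2 ^ k • P := by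
      rw [← add_smul]
      congr 1
      ring
    rw [e, h.2, ht_dbl _ h2 h3 hne, ih]
    ring

lemma injective_two_pow_smul (A : RatFunc F) (hA : A ≠ 0) (h2 : (2 : F) ≠ 0) (h3 : (3 : F) ≠ 0)
    (P : (mordell (A ^ 2)).toAffine.Point) (hP : 0 < ht (slopeFun A P)) :
    Function.Injective (fun k : ℕ => 2 ^ k • P) := by
  intro a b hab
  have h := congrArg (fun Q => ht (slopeFun A Q)) hab
  simp only [ht_two_pow_smul A hA h2 h3 P hP] at h
  exact Nat.pow_right_injective (by norm_num : 2 ≤ 4) (Nat.eq_of_mul_eq_mul_right hP h)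

theorem infinite_order (A : RatFunc F) (hA : A ≠ 0) (h2 : (2 : F) ≠ 0) (h3 : (3 : F) ≠ 0)
    (P : (mordell (A ^ 2)).toAffine.Point) (hP : 0 < ht (slopeFun A P)) :
    ¬ IsOfFinAddOrder P := by
  intro hfin
  have hfinite := (finite_zmultiples (a := P)).2 hfin
  have hinj := injective_two_pow_smul A hA h2 h3 P hP
  refine Set.infinite_range_of_injective hinj (hfinite.subset ?_)
  rintro _ ⟨k, rfl⟩
  exact AddSubgroup.nsmul_mem_zmultiples P _

end ratfunc

end Pool.Agent.Helper44
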