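import Mathlib
import Pool.Agent.Helper44.HeightDoubling

/-!
Explicit points on `y ^ 2 = x ^ 3 + A ^ 2`, `A = a (T ^ (30 m) - e ^ 5)`.
-/

namespace Pool.Agent.Helper44

open Polynomial

section identities

variable {R : Type*} [CommRing R]

/-- quartic factor of `s ^ 10 - 5 ^ 5` -/
def gg (s : R) : R := s ^ 4 - 5 * s ^ 3 + 15 * s ^ 2 - 25 * s + 25

/-- the numerator polynomial -/
def rr (s : R) : R := s ^ 12 - 40 * s ^ 11 - 255 * s ^ 10 + 350 * s ^ 9 + 750 * s ^ 8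
  - 3250 * s ^ 7 - 20000 * s ^ 6 - 16250 * s ^ 5 + 18750 * s ^ 4 + 43750 * s ^ 3
  - 159375 * s ^ 2 - 125000 * s + 15625

/-- the denominator polynomial -/
def dd (s : R) : R := s ^ 12 + 65 * s ^ 10 - 100 * s ^ 8 + 2500 * s ^ 4 - 40625 * s ^ 2 - 15625

lemma gg_mul (s : R) : (s ^ 2 - 5) * (gg s * gg (-s)) = s ^ 10 - 3125 := by
  simp only [gg]; ring

lemma big_identity (s : R) :
    gg s * rr s ^ 3 - gg (-s) * rr (-s) ^ 3 = -250 * (s * (s ^ 2 - 5) * dd s ^ 3) := by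
  simp only [gg, rr, dd]; ring

end identities

section points

variable {K : Type*} [Field K]

/-- Point from two functions `B`, `C` with `B C (B - C) k ^ 3 = 2 A τ ^ 3`. -/
lemma point_of_factors (A B C k τ : K) (hτ : τ ≠ 0) (h2 : (2 : K) ≠ 0)
    (h : 2 * A * τ ^ 3 = k ^ 3 * (B * C * (B - C))) :
    (k ^ 3 * (B * C) * (B + C) / (2 * τ ^ 3)) ^ 2 =
      (k ^ 2 * (B * C) / τ ^ 2) ^ 3 + A ^ 2 := by
  have hA : A = k ^ 3 * (B * C * (B - C)) / (2 * τ ^ 3) := by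
    field_simp
    linear_combination h
  rw [hA]
  field_simp
  ring

lemma slope_of_factors (A B C k τ : K) (hτ : τ ≠ 0) (h2 : (2 : K) ≠ 0) (hA : A ≠ 0)
    (h : 2 * A * τ ^ 3 = k ^ 3 * (B * C * (B - C))) :
    (k ^ 3 * (B * C) * (B + C) / (2 * τ ^ 3)) / A = (B + C) / (B - C) := by
  have h0 : k ^ 3 * (B * C * (B - C)) ≠ 0 := by
    rw [← h]
    exact mul_ne_zero (mul_ne_zero h2 hA) (pow_ne_zero _ hτ)
  have hk : k ^ 3 ≠ 0 := left_ne_zero_of_mul h0
  have hBCBC : B * C * (B - C) ≠ 0 := right_ne_zero_of_mul h0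
  have hBC : B * C ≠ 0 := left_ne_zero_of_mul hBCBC
  have hBmC : B - C ≠ 0 := right_ne_zero_of_mul hBCBC
  have hA' : A = k ^ 3 * (B * C * (B - C)) / (2 * τ ^ 3) := by
    field_simp
    linear_combination h
  rw [hA']
  have hB : B ≠ 0 := left_ne_zero_of_mul hBC
  have hC : C ≠ 0 := right_ne_zero_of_mul hBC
  have hk' : k ≠ 0 := by
    rintro rfl
    simp at hk
  field_simp

end points

section ratfunc

variable {F : Type*} [Field F]

lemma ht_pos_of_eval (U V : F[X]) (hV : V ≠ 0) (hV0 : V.eval 0 = 0) (hU0 : U.eval 0 ≠ 0) :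
    0 < ht (algebraMap F[X] (RatFunc F) U / algebraMap F[X] (RatFunc F) V) := by
  set r := algebraMap F[X] (RatFunc F) U / algebraMap F[X] (RatFunc F) V with hr
  have h1 : r.num * V = U * r.denom := by
    rw [RatFunc.num_mul_eq_mul_denom_iff hV]
  by_contra hcon
  have h0 : ht r = 0 := by omega
  have hd : r.denom.natDegree = 0 := by
    have : r.denom.natDegree ≤ ht r := le_max_right _ _
    omega
  have hd1 : r.denom = 1 := (RatFunc.monic_denom r).natDegree_eq_zero.1 hd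
  rw [hd1, mul_one] at h1
  apply hU0
  rw [← h1, eval_mul, hV0, mul_zero]

lemma point_of_polys (A : RatFunc F) (hA : A ≠ 0) (B C : F[X]) (k τ : RatFunc F)
    (h2 : (2 : F) ≠ 0) (h3 : (3 : F) ≠ 0) (hτ : τ ≠ 0)
    (h : 2 * A * τ ^ 3 = k ^ 3 * (algebraMap F[X] (RatFunc F) B * algebraMap F[X] (RatFunc F) C *
      (algebraMap F[X] (RatFunc F) B - algebraMap F[X] (RatFunc F) C)))
    (hV0 : (B - C).eval 0 = 0) (hU0 : (B + C).eval 0 ≠ 0) :
    ∃ P : (mordell (A ^ 2)).toAffine.Point, 0 < ht (slopeFun A P) := by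
  have h2' := two_ne_zero_ratFunc h2
  have h3' := three_ne_zero_ratFunc h3
  have hns := mordell_nonsingular _ _ _ (pow_ne_zero 2 hA) h2' h3'
    (point_of_factors A _ _ k τ hτ h2' h)
  refine ⟨.some _ _ hns, ?_⟩
  simp only [slopeFun]
  rw [slope_of_factors A _ _ k τ hτ h2' hA h, ← map_add, ← map_sub]
  apply ht_pos_of_eval _ _ _ hV0 hU0
  intro h0
  have h0' : algebraMap F[X] (RatFunc F) B - algebraMap F[X] (RatFunc F) C = 0 := by
    rw [← map_sub, h0, map_zero]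
  rw [h0', mul_zero, mul_zero] at h
  exact (mul_ne_zero (mul_ne_zero h2' hA) (pow_ne_zero 3 hτ)) h

end ratfunc

section finitefield

variable {F : Type*} [Field F] [Fintype F]

lemma eq_one_of_pow_five (hq : Fintype.card F % 5 ≠ 1) (z : F) (hz : z ^ 5 = 1) : z = 1 := by
  classical
  have hz0 : z ≠ 0 := by
    rintro rfl
    simp at hz
  have h1 : orderOf (Units.mk0 z hz0) ∣ 5 := by
    apply orderOf_dvd_of_pow_eq_one
    ext
    simpa using hz
  have h2 : orderOf (Units.mk0 z hz0) ∣ Fintype.card F - 1 := by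
    rw [← Fintype.card_units]
    exact orderOf_dvd_card
  rcases (Nat.dvd_prime (by norm_num : Nat.Prime 5)).1 h1 with h | h
  · have := orderOf_eq_one_iff.1 h
    have h' := congrArg Units.val this
    simpa using h'
  · exfalso
    rw [h] at h2
    have : 1 < Fintype.card F := Fintype.one_lt_card
    omega

lemma pow_five_surjective (hq : Fintype.card F % 5 ≠ 1) :
    Function.Surjective (fun x : F => x ^ 5) := by
  apply Finite.surjective_of_injective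
  intro x y hxy
  simp only at hxy
  by_cases hy : y = 0
  · subst hy
    simpa using hxy
  · have : (x / y) ^ 5 = 1 := by
      rw [div_pow, hxy, div_self (pow_ne_zero _ hy)]
    have := eq_one_of_pow_five hq _ this
    exact (div_eq_one_iff_eq hy).1 this

lemma isSquare_mul_of_not (h2 : (2 : F) ≠ 0) {a b : F} (ha : ¬ IsSquare a) (hb : ¬ IsSquare b) :
    IsSquare (a * b) := by
  classical
  have hchar : ringChar F ≠ 2 := by
    intro h
    apply h2
    have := ringChar.Nat.cast_ringChar (R := F)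
    rw [h] at this
    exact_mod_cast this
  have ha0 : a ≠ 0 := by rintro rfl; exact ha (IsSquare.zero)
  have hb0 : b ≠ 0 := by rintro rfl; exact hb (IsSquare.zero)
  have h1 := (quadraticChar_neg_one_iff_not_isSquare).2 ha
  have h2 := (quadraticChar_neg_one_iff_not_isSquare).2 hb
  rw [← quadraticChar_one_iff_isSquare (mul_ne_zero ha0 hb0), map_mul, h1, h2]
  norm_num

lemma not_square_of_card (hq : Fintype.card F % 5 ≠ 1) (h2 : (2 : F) ≠ 0) (h5 : (5 : F) ≠ 0)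
    (w : F) (hw : w ^ 2 = 5) : ¬ IsSquare ((w - 5) / 2) := by
  rintro ⟨s, hs⟩
  have hs' : 2 * s ^ 2 = w - 5 := by
    have : w - 5 = 2 * ((w - 5) / 2) := by field_simp
    rw [this, hs]; ring
  have h4 : (4 : F) ≠ 0 := by
    have : (4 : F) = 2 ^ 2 := by norm_num
    rw [this]; exact pow_ne_zero _ h2
  set z : F := (2 * s + 1 + w) / 4 with hz
  have hz4 : 4 * z = 2 * s + 1 + w := by rw [hz]; field_simp
  have hz2 : z ^ 2 = s * z + 1 := by
    have : (16 : F) * (z ^ 2 - (s * z + 1)) = 0 := by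
      linear_combination (4 * z - 2 * s + 1 + w) * hz4 - 2 * hs' + hw
    have h16 : (16 : F) ≠ 0 := by
      have : (16 : F) = 2 ^ 4 := by norm_num
      rw [this]; exact pow_ne_zero _ h2
    rcases mul_eq_zero.1 this with h | h
    · exact absurd h h16
    · linear_combination h
  set u : F := z ^ 2 with hu
  have hu2 : 2 * (u ^ 2 + 1) = (w - 1) * u := by
    have : (z ^ 2 - 1) ^ 2 = s ^ 2 * z ^ 2 := by
      linear_combination (z ^ 2 - 1 + s * z) * (hu.symm.trans hz2)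
    rw [hu]
    linear_combination 2 * this + z ^ 2 * hs'
  have hu5 : u ^ 5 = 1 := by
    have h : (4 : F) * (u ^ 4 + u ^ 3 + u ^ 2 + u + 1) = 0 := by
      linear_combination (2 * u ^ 2 + (1 + w) * u + 2) * hu2 + u ^ 2 * hw
    rcases mul_eq_zero.1 h with h | h
    · exact absurd h h4
    · linear_combination (u - 1) * h
  have hu1 := eq_one_of_pow_five hq u hu5
  rw [hu1] at hu2
  have hw5 : w = 5 := by linear_combination -hu2
  rw [hw5] at hw
  have : (2 : F) * 2 * 5 = 0 := by linear_combination hw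
  exact (mul_ne_zero (mul_ne_zero h2 h2) h5) this

instance : Fact (Nat.Prime 5) := ⟨by norm_num⟩

lemma zmod5_squares (a : ZMod 5) : (IsSquare (a * 4) ↔ IsSquare a) ∧
    (IsSquare (-a) ↔ IsSquare a) ∧ IsSquare (4 : ZMod 5) ∧ ¬ IsSquare (2 : ZMod 5) ∧
    ¬ IsSquare (3 : ZMod 5) ∧ IsSquare (1 : ZMod 5) := by
  revert a; decide

lemma isSquare_five (h2 : (2 : F) ≠ 0) :
    (Fintype.card F % 5 = 4 → IsSquare (5 : F)) ∧
    (Fintype.card F % 5 = 2 ∨ Fintype.card F % 5 = 3 → ¬ IsSquare (5 : F)) := by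
  classical
  have hchar : ringChar F ≠ 2 := by
    intro h
    apply h2
    have := ringChar.Nat.cast_ringChar (R := F)
    rw [h] at this
    exact_mod_cast this
  have h := FiniteField.isSquare_odd_prime_iff hchar (p := 5) (by norm_num)
  have h5 : ((5 : ℕ) : F) = 5 := by norm_num
  rw [h5] at h
  rw [h]
  have hodd : Fintype.card F % 2 = 1 := FiniteField.odd_card_of_char_ne_two hchar
  have hx : ZMod.χ₄ (Fintype.card F : ZMod 4) = 1 ∨ ZMod.χ₄ (Fintype.card F : ZMod 4) = -1 := by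
    rw [ZMod.χ₄_nat_eq_if_mod_four]
    split_ifs <;> omega
  have hcast : ((Fintype.card F : ℕ) : ZMod 5) = ((Fintype.card F % 5 : ℕ) : ZMod 5) :=
    (ZMod.natCast_mod _ _).symm
  rw [hcast, ne_eq, quadraticChar_neg_one_iff_not_isSquare, not_not]
  obtain ⟨-, -, s4, s2, s3, -⟩ := zmod5_squares 1
  constructor
  · intro h4
    rw [h4]
    rcases hx with hx | hx <;> rw [hx]
    · simpa using s4
    · simpa [(zmod5_squares 4).2.1] using s4
  · intro h4
    rcases h4 with h4 | h4 <;> rw [h4] <;> rcases hx with hx | hx <;> rw [hx]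
    · simpa using s2
    · simpa [(zmod5_squares 2).2.1] using s2
    · simpa using s3
    · simpa [(zmod5_squares 3).2.1] using s3

end finitefield

section existence

variable {F : Type*} [Field F]

lemma map_gg {R S : Type*} [CommRing R] [CommRing S] (f : R →+* S) (s : R) :
    f (gg s) = gg (f s) := by
  simp only [gg, map_add, map_sub, map_mul, map_pow, map_ofNat]

lemma map_rr {R S : Type*} [CommRing R] [CommRing S] (f : R →+* S) (s : R) :
    f (rr s) = rr (f s) := by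
  simp only [rr, map_add, map_sub, map_mul, map_pow, map_ofNat]

lemma map_dd {R S : Type*} [CommRing R] [CommRing S] (f : R →+* S) (s : R) :
    f (dd s) = dd (f s) := by
  simp only [dd, map_add, map_sub, map_mul, map_pow, map_ofNat]

/-- The function `A = (T ^ (6 n) - c) / (2 b ^ 2)`. -/
noncomputable def AA (b c : F) (n : ℕ) : RatFunc F :=
  (RatFunc.X ^ (6 * n) - RatFunc.C c) / (2 * RatFunc.C b ^ 2)

lemma X_pow_sub_C_ne_zero' (c : F) {n : ℕ} (hn : 0 < n) :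
    (RatFunc.X ^ n - RatFunc.C c : RatFunc F) ≠ 0 := by
  have h : (RatFunc.X ^ n - RatFunc.C c : RatFunc F) =
      algebraMap F[X] (RatFunc F) (X ^ n - C c) := by
    simp
  rw [h]
  have := Polynomial.X_pow_sub_C_ne_zero hn c
  exact (map_ne_zero_iff _ (RatFunc.algebraMap_injective F)).2 this

lemma AA_ne_zero (b c : F) {n : ℕ} (hn : 0 < n) (h2 : (2 : F) ≠ 0) (hb : b ≠ 0) :
    AA b c n ≠ 0 := by
  have h2' := two_ne_zero_ratFunc h2
  have hb' : RatFunc.C b ≠ (0 : RatFunc F) := (_root_.map_ne_zero _).2 hb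
  exact div_ne_zero (X_pow_sub_C_ne_zero' c (by omega))
    (mul_ne_zero h2' (pow_ne_zero _ hb'))

lemma quartic_prod {R : Type*} [CommRing R] (v a b e : R) (h1 : a ^ 2 + b ^ 2 = -5 * e)
    (h2 : a ^ 2 * b ^ 2 = 5 * e ^ 2) :
    ((v ^ 2 - a * v - e) * (v ^ 2 + b * v - e)) * ((v ^ 2 + a * v - e) * (v ^ 2 - b * v - e)) *
      (v ^ 2 - e) = v ^ 10 - e ^ 5 := by
  linear_combination (-(v ^ 2 * (v ^ 2 - e) ^ 3)) * h1 + v ^ 4 * (v ^ 2 - e) * h2

/-- Case `5` is a square. -/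
lemma exists_point_case1 (h2 : (2 : F) ≠ 0) (h3 : (3 : F) ≠ 0) (h5 : (5 : F) ≠ 0)
    (k e₀ w s₁ : F) (hk : k ≠ 0) (he : e₀ ≠ 0) (hw : w ^ 2 = 5)
    (hs₁ : e₀ ^ 3 * ((w - 5) / 2) = s₁ ^ 2) {m : ℕ} (hm : 0 < m) :
    ∃ P : (mordell (AA (10 * k ^ 3) (e₀ ^ 15) (5 * m) ^ 2)).toAffine.Point,
      0 < ht (slopeFun (AA (10 * k ^ 3) (e₀ ^ 15) (5 * m)) P) := by
  have h2' := two_ne_zero_ratFunc h2
  have h10 : (10 : F) ≠ 0 := by
    have : (10 : F) = 2 * 5 := by norm_num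
    rw [this]; exact mul_ne_zero h2 h5
  have hb : 10 * k ^ 3 ≠ 0 := mul_ne_zero h10 (pow_ne_zero _ hk)
  have hs₁0 : s₁ ≠ 0 := by
    rintro rfl
    have h : e₀ ^ 3 * ((w - 5) / 2) = 0 := by rw [hs₁]; ring
    rcases mul_eq_zero.1 h with h | h
    · exact he (pow_eq_zero_iff (by norm_num) |>.1 h)
    · have hw5 : w = 5 := by
        have : w - 5 = 2 * ((w - 5) / 2) := by field_simp
        rw [h, mul_zero] at this
        linear_combination this
      rw [hw5] at hw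
      have : (2 : F) * 2 * 5 = 0 := by linear_combination hw
      exact (mul_ne_zero (mul_ne_zero h2 h2) h5) this
  obtain ⟨e, hedef⟩ : ∃ e, e = e₀ ^ 3 := ⟨_, rfl⟩
  rw [← hedef] at hs₁
  obtain ⟨s₂, hs₂⟩ : ∃ x : F, x = -(e * w) / s₁ := ⟨_, rfl⟩
  have he0 : e ≠ 0 := by rw [hedef]; exact pow_ne_zero _ he
  have h12 : s₁ * s₂ = -(e * w) := by rw [hs₂]; field_simp
  have hs1 : 2 * s₁ ^ 2 = e * (w - 5) := by rw [← hs₁]; field_simp
  have hs2 : 2 * s₂ ^ 2 = -(e * (w + 5)) := by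
    have : (2 * s₁ ^ 2) * (2 * s₂ ^ 2 + e * (w + 5)) = 0 := by
      linear_combination (4 * (s₁ * s₂ - e * w)) * h12 + (e * (w + 5)) * hs1
        + (5 * e ^ 2) * hw
    rcases mul_eq_zero.1 this with h | h
    · exact absurd h (mul_ne_zero h2 (pow_ne_zero _ hs₁0))
    · linear_combination h
  have hsum : s₁ ^ 2 + s₂ ^ 2 = -5 * e := by
    have : (2 : F) * (s₁ ^ 2 + s₂ ^ 2 + 5 * e) = 0 := by
      linear_combination hs1 + hs2
    rcases mul_eq_zero.1 this with h | h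
    · exact absurd h h2
    · linear_combination h
  obtain ⟨η, hη⟩ : ∃ x : F, x = (1 - w) / 2 := ⟨_, rfl⟩
  have hη2 : 2 * η = 1 - w := by rw [hη]; field_simp
  have hη3 : η ^ 3 = 2 - w := by
    have : (8 : F) * (η ^ 3 - (2 - w)) = 0 := by
      linear_combination (4 * η ^ 2 + 2 * η * (1 - w) + (1 - w) ^ 2) * hη2 + (3 - w) * hw
    have h8 : (8 : F) ≠ 0 := by
      have : (8 : F) = 2 ^ 3 := by norm_num
      rw [this]; exact pow_ne_zero _ h2
    rcases mul_eq_zero.1 this with h | h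
    · exact absurd h h8
    · linear_combination h
  have hη0 : η ≠ 0 := by
    rintro h0
    rw [h0] at hη3
    have hw2 : w = 2 := by linear_combination hη3
    rw [hw2] at hw
    exact one_ne_zero (α := F) (by linear_combination -hw)
  obtain ⟨δ, hδ⟩ : ∃ x : F, x = s₂ - s₁ := ⟨_, rfl⟩
  have hδ2 : δ ^ 2 = e * w * η ^ 3 := by
    rw [hη3, hδ]
    linear_combination hsum - 2 * h12 + e * hw
  have hδ4 : δ ^ 4 = 5 * (e₀ ^ 2 * η ^ 2) ^ 3 := by
    have : δ ^ 4 = (δ ^ 2) ^ 2 := by ring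
    rw [this, hδ2, hedef]
    linear_combination (e₀ ^ 6 * η ^ 6) * hw
  obtain ⟨κ, hκ⟩ : ∃ x : F, x = 1 / (10 * k ^ 2) := ⟨_, rfl⟩
  have hk1 : (κ * δ / (e₀ ^ 2 * η ^ 2)) ^ 3 * δ = 5 * κ ^ 3 := by
    have : (κ * δ / (e₀ ^ 2 * η ^ 2)) ^ 3 * δ = κ ^ 3 * δ ^ 4 / (e₀ ^ 2 * η ^ 2) ^ 3 := by
      field_simp
    rw [this, hδ4]
    field_simp
  obtain ⟨k₁, hk₁⟩ : ∃ x : F, x = κ * δ / (e₀ ^ 2 * η ^ 2) := ⟨_, rfl⟩
  rw [← hk₁] at hk1
  have hk100 : 100 * k ^ 6 * (10 * κ ^ 3) = 1 := by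
    rw [hκ]
    have h10' : (10 : F) * k ^ 2 ≠ 0 := mul_ne_zero h10 (pow_ne_zero _ hk)
    field_simp
    ring
  -- the polynomials
  obtain ⟨v, hv⟩ : ∃ v : F[X], v = X ^ (3 * m) := ⟨_, rfl⟩
  obtain ⟨B, hB⟩ : ∃ B : F[X], B = (v ^ 2 - C s₁ * v - C e) * (v ^ 2 + C s₂ * v - C e) :=
    ⟨_, rfl⟩
  obtain ⟨D, hD⟩ : ∃ D : F[X], D = (v ^ 2 + C s₁ * v - C e) * (v ^ 2 - C s₂ * v - C e) :=
    ⟨_, rfl⟩
  have hv0 : v.eval 0 = 0 := by
    rw [hv, eval_pow, eval_X, zero_pow (by omega)]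
  have hV0 : (B - D).eval 0 = 0 := by
    rw [hB, hD]
    simp only [eval_sub, eval_mul, eval_add, eval_pow, eval_C, hv0]
    ring
  have hU0 : (B + D).eval 0 ≠ 0 := by
    rw [hB, hD]
    simp only [eval_sub, eval_mul, eval_add, eval_pow, eval_C, hv0]
    have : ((0 : F) ^ 2 - s₁ * 0 - e) * (0 ^ 2 + s₂ * 0 - e) +
      (0 ^ 2 + s₁ * 0 - e) * (0 ^ 2 - s₂ * 0 - e) = 2 * e ^ 2 := by ring
    rw [this]
    exact mul_ne_zero h2 (pow_ne_zero _ he0)
  have hA := AA_ne_zero (10 * k ^ 3) (e₀ ^ 15) (n := 5 * m) (by omega) h2 hb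
  have hprod : B * D * (v ^ 2 - C e) = v ^ 10 - C (e ^ 5) := by
    have h1 : (C s₁ : F[X]) ^ 2 + (C s₂) ^ 2 = -5 * C e := by
      rw [← map_pow, ← map_pow, ← map_add, hsum, map_mul, map_neg, map_ofNat]
    have h2 : (C s₁ : F[X]) ^ 2 * (C s₂) ^ 2 = 5 * (C e) ^ 2 := by
      have : s₁ ^ 2 * s₂ ^ 2 = 5 * e ^ 2 := by
        linear_combination (s₁ * s₂ - e * w) * h12 + e ^ 2 * hw
      rw [← map_pow, ← map_pow, ← map_mul, this, map_mul, map_ofNat, map_pow]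
    rw [hB, hD, map_pow]
    exact quartic_prod v (C s₁) (C s₂) (C e) h1 h2
  have hdiff : B - D = 2 * C δ * v * (v ^ 2 - C e) := by
    rw [hB, hD, hδ, map_sub]
    ring
  have hτ : (RatFunc.X ^ m : RatFunc F) ≠ 0 := pow_ne_zero _ RatFunc.X_ne_zero
  refine point_of_polys _ hA B D (RatFunc.C k₁) (RatFunc.X ^ m) h2 h3 hτ ?_ hV0 hU0
  rw [← map_mul, ← map_sub, ← map_mul]
  have e1 : B * D * (B - D) = 2 * C δ * v * (v ^ 10 - C (e ^ 5)) := by
    rw [hdiff]
    linear_combination (2 * C δ * v) * hprod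
  rw [e1]
  have e2 : RatFunc.C k₁ ^ 3 * algebraMap F[X] (RatFunc F) (2 * C δ * v * (v ^ 10 - C (e ^ 5))) =
      algebraMap F[X] (RatFunc F) (C (k₁ ^ 3 * δ) * (2 * v * (v ^ 10 - C (e ^ 5)))) := by
    have : RatFunc.C k₁ = algebraMap F[X] (RatFunc F) (C k₁) := by simp
    rw [this, ← map_pow, ← map_mul]
    congr 1
    simp only [map_mul, map_pow]
    ring
  rw [e2, hk1]
  have hbb : algebraMap F[X] (RatFunc F) (C (100 * k ^ 6)) ≠ 0 := by
    rw [map_ne_zero_iff _ (RatFunc.algebraMap_injective F)]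
    apply C_ne_zero.2
    intro h0
    rw [h0, zero_mul] at hk100
    exact zero_ne_one hk100
  have e3 : AA (10 * k ^ 3) (e₀ ^ 15) (5 * m) =
      algebraMap F[X] (RatFunc F) (v ^ 10 - C (e ^ 5)) /
        (2 * algebraMap F[X] (RatFunc F) (C (100 * k ^ 6))) := by
    rw [AA, hv, hedef]
    have i1 : (RatFunc.X : RatFunc F) ^ (6 * (5 * m)) - RatFunc.C (e₀ ^ 15) =
        algebraMap F[X] (RatFunc F) ((X ^ (3 * m)) ^ 10 - C ((e₀ ^ 3) ^ 5)) := by
      rw [← pow_mul, ← pow_mul]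
      simp only [map_sub, map_pow, RatFunc.algebraMap_X, RatFunc.algebraMap_C]
      congr 2
      ring
    have i2 : (RatFunc.C (10 * k ^ 3) : RatFunc F) ^ 2 =
        algebraMap F[X] (RatFunc F) (C (100 * k ^ 6)) := by
      rw [← map_pow, RatFunc.algebraMap_C]
      congr 1
      ring
    rw [i1, i2]
  rw [e3]
  have e4 : (RatFunc.X ^ m : RatFunc F) ^ 3 = algebraMap F[X] (RatFunc F) v := by
    rw [hv, map_pow, RatFunc.algebraMap_X]
    ring
  rw [e4, mul_div_assoc', mul_div_mul_left _ _ h2', div_mul_eq_mul_div, div_eq_iff hbb, ← map_mul,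
    ← map_mul]
  congr 1
  have i3 : (C (100 * k ^ 6) : F[X]) * C (10 * κ ^ 3) = 1 := by
    rw [← map_mul, hk100, map_one]
  have i4 : (C (5 * κ ^ 3) : F[X]) * 2 = C (10 * κ ^ 3) := by
    have : (2 : F[X]) = C 2 := (map_ofNat C 2).symm
    rw [this, ← map_mul]
    congr 1
    ring
  linear_combination (-(v * (v ^ 10 - C (e ^ 5)))) * i3 -
    (v * (v ^ 10 - C (e ^ 5)) * C (100 * k ^ 6)) * i4

lemma algebraMap_ne_zero_of_eval (U : F[X]) (hU : U.eval 0 ≠ 0) :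
    algebraMap F[X] (RatFunc F) U ≠ 0 := by
  rw [map_ne_zero_iff _ (RatFunc.algebraMap_injective F)]
  rintro rfl
  simp at hU

/-- Case `5 e` is a square. -/
lemma exists_point_case2 (h2 : (2 : F) ≠ 0) (h3 : (3 : F) ≠ 0) (h5 : (5 : F) ≠ 0)
    (k e₀ w : F) (hk : k ≠ 0) (he : e₀ ≠ 0) (hw : 5 * e₀ ^ 3 = w ^ 2) {m : ℕ} (hm : 0 < m) :
    ∃ P : (mordell (AA (10 * k ^ 3) (e₀ ^ 15) (5 * m) ^ 2)).toAffine.Point,
      0 < ht (slopeFun (AA (10 * k ^ 3) (e₀ ^ 15) (5 * m)) P) := by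
  have h2' := two_ne_zero_ratFunc h2
  have h10 : (10 : F) ≠ 0 := by
    have : (10 : F) = 2 * 5 := by norm_num
    rw [this]; exact mul_ne_zero h2 h5
  have hb : 10 * k ^ 3 ≠ 0 := mul_ne_zero h10 (pow_ne_zero _ hk)
  have hw0 : w ≠ 0 := by
    rintro rfl
    have h : 5 * e₀ ^ 3 ≠ 0 := mul_ne_zero h5 (pow_ne_zero _ he)
    rw [hw] at h
    simp at h
  obtain ⟨ρ, hρ⟩ : ∃ ρ : F, w = 5 * ρ := ⟨w / 5, by field_simp⟩
  have hρ0 : ρ ≠ 0 := by
    rintro rfl
    exact hw0 (by rw [hρ, mul_zero])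
  have he3 : e₀ ^ 3 = 5 * ρ ^ 2 := by
    have : (5 : F) * (e₀ ^ 3 - 5 * ρ ^ 2) = 0 := by
      rw [hρ] at hw
      linear_combination hw
    rcases mul_eq_zero.1 this with h | h
    · exact absurd h h5
    · linear_combination h
  obtain ⟨μ, hμ⟩ : ∃ μ : F, μ = ρ ^ 3 * e₀ / (10 * k ^ 2) := ⟨_, rfl⟩
  have hμ3 : (200 * k ^ 6) * μ ^ 3 = ρ ^ 11 := by
    have h10' : (10 : F) * k ^ 2 ≠ 0 := mul_ne_zero h10 (pow_ne_zero _ hk)
    have h1 : (10 * k ^ 2) * μ = ρ ^ 3 * e₀ := by rw [hμ]; field_simp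
    have h2 : (10 * k ^ 2) ^ 3 * μ ^ 3 = ρ ^ 9 * e₀ ^ 3 := by
      rw [← mul_pow, h1]; ring
    have h3 : (5 : F) * (200 * k ^ 6 * μ ^ 3 - ρ ^ 11) = 0 := by
      rw [he3] at h2
      linear_combination h2
    rcases mul_eq_zero.1 h3 with h | h
    · exact absurd h h5
    · linear_combination h
  obtain ⟨S, hS⟩ : ∃ S : F[X], S = C ρ⁻¹ * X ^ (3 * m) := ⟨_, rfl⟩
  have hS0 : S.eval 0 = 0 := by
    rw [hS, eval_mul, eval_pow, eval_X, zero_pow (by omega), mul_zero]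
  have hgg : (gg S).eval 0 = 25 := by
    rw [← coe_evalRingHom, map_gg, coe_evalRingHom, hS0, gg]; ring
  have hgg' : (gg (-S)).eval 0 = 25 := by
    rw [← coe_evalRingHom, map_gg, map_neg, coe_evalRingHom, hS0, gg]; ring
  have hrr : (rr S).eval 0 = 15625 := by
    rw [← coe_evalRingHom, map_rr, coe_evalRingHom, hS0, rr]; ring
  have hrr' : (rr (-S)).eval 0 = 15625 := by
    rw [← coe_evalRingHom, map_rr, map_neg, coe_evalRingHom, hS0, rr]; ring
  have hdd : (dd S).eval 0 = -15625 := by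
    rw [← coe_evalRingHom, map_dd, coe_evalRingHom, hS0, dd]; ring
  have h15625 : (15625 : F) ≠ 0 := by
    have : (15625 : F) = 5 ^ 6 := by norm_num
    rw [this]; exact pow_ne_zero _ h5
  obtain ⟨B, hB⟩ : ∃ B : F[X], B = gg S * rr S ^ 3 := ⟨_, rfl⟩
  obtain ⟨D, hD⟩ : ∃ D : F[X], D = gg (-S) * rr (-S) ^ 3 := ⟨_, rfl⟩
  have hV0 : (B - D).eval 0 = 0 := by
    rw [hB, hD, eval_sub, eval_mul, eval_mul, eval_pow, eval_pow, hgg, hgg', hrr, hrr', sub_self]
  have hU0 : (B + D).eval 0 ≠ 0 := by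
    rw [hB, hD, eval_add, eval_mul, eval_mul, eval_pow, eval_pow, hgg, hgg', hrr, hrr']
    have : (25 : F) * 15625 ^ 3 + 25 * 15625 ^ 3 = 2 * 5 ^ 20 := by norm_num
    rw [this]
    exact mul_ne_zero h2 (pow_ne_zero _ h5)
  have hA := AA_ne_zero (10 * k ^ 3) (e₀ ^ 15) (n := 5 * m) (by omega) h2 hb
  have h5' : (5 : RatFunc F) ≠ 0 := by
    have : (5 : RatFunc F) = RatFunc.C (5 : F) := (map_ofNat RatFunc.C 5).symm
    rw [this]
    exact (_root_.map_ne_zero _).2 h5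
  have n1 : algebraMap F[X] (RatFunc F) (dd S) ≠ 0 :=
    algebraMap_ne_zero_of_eval _ (by rw [hdd]; exact neg_ne_zero.2 h15625)
  have n2 : algebraMap F[X] (RatFunc F) (rr S) ≠ 0 :=
    algebraMap_ne_zero_of_eval _ (by rw [hrr]; exact h15625)
  have n3 : algebraMap F[X] (RatFunc F) (rr (-S)) ≠ 0 :=
    algebraMap_ne_zero_of_eval _ (by rw [hrr']; exact h15625)
  obtain ⟨s, hs⟩ : ∃ s : RatFunc F, s = algebraMap F[X] (RatFunc F) S := ⟨_, rfl⟩
  rw [map_dd, ← hs] at n1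
  rw [map_rr, ← hs] at n2
  rw [map_rr, map_neg, ← hs] at n3
  have hτ : (RatFunc.X ^ m * (-5 * (dd s * rr s * rr (-s))) : RatFunc F) ≠ 0 :=
    mul_ne_zero (pow_ne_zero _ RatFunc.X_ne_zero)
      (mul_ne_zero (neg_ne_zero.2 h5') (mul_ne_zero (mul_ne_zero n1 n2) n3))
  refine point_of_polys _ hA B D (RatFunc.C μ) _ h2 h3 hτ ?_ hV0 hU0
  have hBs : algebraMap F[X] (RatFunc F) B = gg s * rr s ^ 3 := by
    rw [hB, map_mul, map_pow, map_gg, map_rr, hs]
  have hDs : algebraMap F[X] (RatFunc F) D = gg (-s) * rr (-s) ^ 3 := by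
    rw [hD, map_mul, map_pow, map_gg, map_rr, map_neg, hs]
  have hXs : (RatFunc.X : RatFunc F) ^ (3 * m) = RatFunc.C ρ * s := by
    rw [hs, hS, map_mul, map_pow, RatFunc.algebraMap_X, RatFunc.algebraMap_C, ← mul_assoc,
      ← map_mul, mul_inv_cancel₀ hρ0, map_one, one_mul]
  have hAs : AA (10 * k ^ 3) (e₀ ^ 15) (5 * m) * RatFunc.X ^ (3 * m) =
      RatFunc.C μ ^ 3 * (s * (s ^ 10 - 3125)) := by
    have hk6 : (RatFunc.C (k ^ 6) : RatFunc F) ≠ 0 :=
      (_root_.map_ne_zero _).2 (pow_ne_zero _ hk)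
    have h200 : (200 : RatFunc F) ≠ 0 := by
      have : (200 : RatFunc F) = 2 ^ 3 * 5 ^ 2 := by norm_num
      rw [this]; exact mul_ne_zero (pow_ne_zero _ h2') (pow_ne_zero _ h5')
    have i1 : (RatFunc.X : RatFunc F) ^ (6 * (5 * m)) - RatFunc.C (e₀ ^ 15) =
        RatFunc.C ρ ^ 10 * (s ^ 10 - 3125) := by
      have : (RatFunc.X : RatFunc F) ^ (6 * (5 * m)) = (RatFunc.X ^ (3 * m)) ^ 10 := by
        rw [← pow_mul]; congr 1; ring
      rw [this, hXs]
      have : e₀ ^ 15 = 3125 * ρ ^ 10 := by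
        have : e₀ ^ 15 = (e₀ ^ 3) ^ 5 := by ring
        rw [this, he3]; ring
      rw [this, map_mul, map_pow, map_ofNat]
      ring
    have i2 : 2 * (RatFunc.C (10 * k ^ 3) : RatFunc F) ^ 2 = 200 * RatFunc.C (k ^ 6) := by
      rw [map_mul, map_ofNat, map_pow, map_pow]
      ring
    have i3 : 200 * RatFunc.C (k ^ 6) * RatFunc.C μ ^ 3 = (RatFunc.C ρ ^ 11 : RatFunc F) := by
      have := congrArg (RatFunc.C : F →+* RatFunc F) hμ3
      simpa only [map_mul, map_pow, map_ofNat] using this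
    rw [AA, i1, i2, hXs, div_mul_eq_mul_div, div_eq_iff (mul_ne_zero h200 hk6)]
    linear_combination (-(s * (s ^ 10 - 3125))) * i3
  rw [hBs, hDs]
  have e1 := big_identity s
  have e2 := gg_mul s
  have e3 : RatFunc.X ^ (3 * m) = ((RatFunc.X : RatFunc F) ^ m) ^ 3 := by
    rw [← pow_mul, mul_comm]
  rw [e3] at hAs
  rw [e1]
  linear_combination (-250 * (dd s * rr s * rr (-s)) ^ 3) * hAs +
    (-250 * RatFunc.C μ ^ 3 * s * (dd s * rr s * rr (-s)) ^ 3) * (-e2)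

end existence

end Pool.Agent.Helper44
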